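import Mathlib
import Pool.Agent.Q236.Spikes

set_option autoImplicit false

namespace Pool.Agent.Results.MP_af711c_co.SuperexponentialCount

open Set Bornology

/-- The edge from the vertex `v i` of a polygon to the next vertex in the cyclic order. -/
def edge {n : ℕ} (v : Fin n → ℝ × ℝ) (i : Fin n) : Set (ℝ × ℝ) :=
  segment ℝ (v i) (v (finRotate n i))

/-- A simple polygon with `n` vertices: the vertices are distinct, and two different edges have a
common point only if they are consecutive, and then only the common vertex. -/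
def IsSimple {n : ℕ} (v : Fin n → ℝ × ℝ) : Prop :=
  Function.Injective v ∧ ∀ i j, i ≠ j → ∀ x ∈ edge v i ∩ edge v j,
    (j = finRotate n i ∧ x = v j) ∨ (i = finRotate n j ∧ x = v i)

/-- The boundary curve. -/
def boundary {n : ℕ} (v : Fin n → ℝ × ℝ) : Set (ℝ × ℝ) := ⋃ i, edge v i

/-- The closed region bounded by the polygon: the points which are on the boundary curve or lie in a
bounded component of its complement. -/
def region {n : ℕ} (v : Fin n → ℝ × ℝ) : Set (ℝ × ℝ) :=
  {z | z ∈ boundary v ∨ IsBounded (connectedComponentIn (boundary v)ᶜ z)}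

/-- The visibility graph: two vertices are adjacent if the closed segment between them is contained
in the closed region. -/
def visGraph {n : ℕ} (v : Fin n → ℝ × ℝ) : SimpleGraph (Fin n) where
  Adj i j := i ≠ j ∧ segment ℝ (v i) (v j) ⊆ region v
  symm := ⟨fun i j h => ⟨h.1.symm, by rw [segment_symm]; exact h.2⟩⟩
  loopless := ⟨fun _ h => h.1 rfl⟩

/-- Isomorphism of graphs on `n` vertices. -/
def isoSetoid (n : ℕ) : Setoid (SimpleGraph (Fin n)) where
  r G H := Nonempty (G ≃g H)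
  iseqv := ⟨fun _ => ⟨SimpleGraph.Iso.refl⟩, fun ⟨e⟩ => ⟨e.symm⟩, fun ⟨e⟩ ⟨f⟩ => ⟨e.trans f⟩⟩

/-- No vertex is flat: no vertex lies on the segment between its two neighbours. -/
def NoFlat {n : ℕ} (v : Fin n → ℝ × ℝ) : Prop :=
  ∀ i, v (finRotate n i) ∉ segment ℝ (v i) (v (finRotate n (finRotate n i)))

/-- `N(n)`: the number of isomorphism classes of graphs that arise as the visibility graph of a
simple polygon with `n` vertices (flat vertices, with interior angle `π`, are allowed). -/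
noncomputable def N (n : ℕ) : ℕ :=
  Nat.card {c : Quotient (isoSetoid n) // ∃ v : Fin n → ℝ × ℝ, IsSimple v ∧
    c = Quotient.mk (isoSetoid n) (visGraph v)}

/-- The same number for simple polygons with `n` vertices none of which is flat. -/
noncomputable def N' (n : ℕ) : ℕ :=
  Nat.card {c : Quotient (isoSetoid n) // ∃ v : Fin n → ℝ × ℝ, IsSimple v ∧ NoFlat v ∧
    c = Quotient.mk (isoSetoid n) (visGraph v)}

theorem N'_le_N (n : ℕ) : N' n ≤ N n := by
  unfold N N'
  have : Finite (Quotient (isoSetoid n)) := Quotient.finite _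
  refine Nat.card_le_card_of_injective
    (fun c : {c : Quotient (isoSetoid n) // ∃ v : Fin n → ℝ × ℝ, IsSimple v ∧ NoFlat v ∧
      c = Quotient.mk (isoSetoid n) (visGraph v)} => (⟨c.1, ?_⟩ :
      {c : Quotient (isoSetoid n) // ∃ v : Fin n → ℝ × ℝ, IsSimple v ∧
        c = Quotient.mk (isoSetoid n) (visGraph v)})) ?_
  · obtain ⟨v, h1, -, h2⟩ := c.2
    exact ⟨v, h1, h2⟩
  · intro c d h
    have h' := congrArg Subtype.val h
    exact Subtype.ext h'

open Pool.Agent.Q236.Spikes (Par)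

/-- the parameters of the polygon belonging to a choice of thresholds -/
def par (K A p : ℕ) (hK : 2 ≤ K) (hA : 1 ≤ A) (hp : 2 * K ≤ p) (φ : Fin A → Fin (K - 1) × Fin (K - 1)) : Par where
  K := K
  A := A
  p := p
  hK := hK
  hA := hA
  hp := hp
  a i := if h : i < A then ((φ ⟨i, h⟩).1 : ℕ) + 1 else 1
  b i := if h : i < A then ((φ ⟨i, h⟩).2 : ℕ) + 1 else 1
  ha i := by
    split_ifs with h
    · have := (φ ⟨i, h⟩).1.2
      omega
    · omega
  hb i := by
    split_ifs with h
    · have := (φ ⟨i, h⟩).2.2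
      omega
    · omega

/-- the polygon -/
noncomputable def poly (K A p : ℕ) (hK : 2 ≤ K) (hA : 1 ≤ A) (hp : 2 * K ≤ p) (φ : Fin A → Fin (K - 1) × Fin (K - 1)) :
    Fin (p + (2 * A + 2)) → ℝ × ℝ := (par K A p hK hA hp φ).mono.v

theorem poly_simple (K A p : ℕ) (hK : 2 ≤ K) (hA : 1 ≤ A) (hp : 2 * K ≤ p) (φ : Fin A → Fin (K - 1) × Fin (K - 1)) :
    IsSimple (poly K A p hK hA hp φ) := (par K A p hK hA hp φ).mono.simple

theorem poly_noFlat (K A p : ℕ) (hK : 2 ≤ K) (hA : 1 ≤ A) (hp : 2 * K ≤ p)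
    (φ : Fin A → Fin (K - 1) × Fin (K - 1)) :
    NoFlat (poly K A p hK hA hp φ) := (par K A p hK hA hp φ).nonflat

/-- the index of a tip -/
def tipIdx (A p : ℕ) (i : Fin A) : Fin (p + (2 * A + 2)) := ⟨p + 2 * (A - i), by omega⟩

theorem left_lt (K A p : ℕ) (hp : 2 * K ≤ p) (j : Fin (K - 1)) : K - (j + 1) < p + (2 * A + 2) := by omega

/-- the index of a target on the left -/
def leftIdx (K A p : ℕ) (hp : 2 * K ≤ p) (j : Fin (K - 1)) : Fin (p + (2 * A + 2)) := ⟨K - (j + 1), left_lt K A p hp j⟩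

theorem right_lt (K A p : ℕ) (hp : 2 * K ≤ p) (j : Fin (K - 1)) : K + (j + 1) < p + (2 * A + 2) := by
  have := j.2
  omega

/-- the index of a target on the right -/
def rightIdx (K A p : ℕ) (hp : 2 * K ≤ p) (j : Fin (K - 1)) : Fin (p + (2 * A + 2)) := ⟨K + (j + 1), right_lt K A p hp j⟩

theorem poly_tip (K A p : ℕ) (hK : 2 ≤ K) (hA : 1 ≤ A) (hp : 2 * K ≤ p) (φ : Fin A → Fin (K - 1) × Fin (K - 1)) (i : Fin A) :
    poly K A p hK hA hp φ (tipIdx A p i) = (par K A p hK hA hp φ).tip i := by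
  have hi := i.2
  change (if p + 2 * (A - (i : ℕ)) ≤ p then _ else
    (par K A p hK hA hp φ).U (p + (2 * A + 2) - (p + 2 * (A - (i : ℕ))))) = _
  rw [if_neg (by omega)]
  have e : p + (2 * A + 2) - (p + 2 * (A - (i : ℕ))) = 2 * (i : ℕ) + 2 := by omega
  rw [e]
  exact (par K A p hK hA hp φ).U_even i hi

theorem poly_left (K A p : ℕ) (hK : 2 ≤ K) (hA : 1 ≤ A) (hp : 2 * K ≤ p) (φ : Fin A → Fin (K - 1) × Fin (K - 1)) (j : Fin (K - 1)) :
    poly K A p hK hA hp φ (leftIdx K A p hp j) =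
      (-(((j : ℕ) + 1 : ℕ) : ℝ), (((j : ℕ) + 1 : ℕ) : ℝ) ^ 2) := by
  have hj := j.2
  change (if K - ((j : ℕ) + 1) ≤ p then
    ((par K A p hK hA hp φ).X (K - ((j : ℕ) + 1)),
      (par K A p hK hA hp φ).X (K - ((j : ℕ) + 1)) ^ 2) else _) = _
  have hX : (par K A p hK hA hp φ).X (K - ((j : ℕ) + 1)) = -(((j : ℕ) + 1 : ℕ) : ℝ) :=
    (par K A p hK hA hp φ).X_left ((j : ℕ) + 1) (by change (j : ℕ) + 1 ≤ K; omega)
  rw [if_pos (by omega), hX, neg_sq]

theorem poly_right (K A p : ℕ) (hK : 2 ≤ K) (hA : 1 ≤ A) (hp : 2 * K ≤ p) (φ : Fin A → Fin (K - 1) × Fin (K - 1)) (j : Fin (K - 1)) :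
    poly K A p hK hA hp φ (rightIdx K A p hp j) =
      ((((j : ℕ) + 1 : ℕ) : ℝ), (((j : ℕ) + 1 : ℕ) : ℝ) ^ 2) := by
  have hj := j.2
  change (if K + ((j : ℕ) + 1) ≤ p then
    ((par K A p hK hA hp φ).X (K + ((j : ℕ) + 1)),
      (par K A p hK hA hp φ).X (K + ((j : ℕ) + 1)) ^ 2) else _) = _
  have hX : (par K A p hK hA hp φ).X (K + ((j : ℕ) + 1)) = (((j : ℕ) + 1 : ℕ) : ℝ) :=
    (par K A p hK hA hp φ).X_right ((j : ℕ) + 1) (by change (j : ℕ) + 1 + 1 ≤ K; omega)
  rw [if_pos (by omega), hX]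

theorem adj_left (K A p : ℕ) (hK : 2 ≤ K) (hA : 1 ≤ A) (hp : 2 * K ≤ p) (φ : Fin A → Fin (K - 1) × Fin (K - 1)) (i : Fin A) (j : Fin (K - 1)) :
    (visGraph (poly K A p hK hA hp φ)).Adj (tipIdx A p i) (leftIdx K A p hp j) ↔
      (j : ℕ) ≤ (φ i).1 := by
  have hj := j.2
  have hi := i.2
  have h := (par K A p hK hA hp φ).left_view i hi ((j : ℕ) + 1) (by omega) (by
    change (j : ℕ) + 1 + 1 ≤ K; omega)
  have ha : (par K A p hK hA hp φ).a i = ((φ i).1 : ℕ) + 1 := by
    change (if h : (i : ℕ) < A then ((φ ⟨i, h⟩).1 : ℕ) + 1 else 1) = _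
    rw [dif_pos hi]
  rw [ha] at h
  change (_ ≠ _ ∧ segment ℝ (poly K A p hK hA hp φ _) (poly K A p hK hA hp φ _) ⊆
    region (poly K A p hK hA hp φ)) ↔ _
  rw [poly_tip, poly_left]
  constructor
  · rintro ⟨-, h2⟩
    have := h.1 h2
    omega
  · intro h2
    refine ⟨?_, h.2 (by omega)⟩
    intro h3
    have h4 := congrArg Fin.val h3
    simp only [tipIdx, leftIdx] at h4
    omega

theorem adj_right (K A p : ℕ) (hK : 2 ≤ K) (hA : 1 ≤ A) (hp : 2 * K ≤ p) (φ : Fin A → Fin (K - 1) × Fin (K - 1)) (i : Fin A) (j : Fin (K - 1)) :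
    (visGraph (poly K A p hK hA hp φ)).Adj (tipIdx A p i) (rightIdx K A p hp j) ↔
      (j : ℕ) ≤ (φ i).2 := by
  have hj := j.2
  have hi := i.2
  have h := (par K A p hK hA hp φ).right_view i hi ((j : ℕ) + 1) (by omega) (by
    change (j : ℕ) + 1 + 1 ≤ K; omega)
  have ha : (par K A p hK hA hp φ).b i = ((φ i).2 : ℕ) + 1 := by
    change (if h : (i : ℕ) < A then ((φ ⟨i, h⟩).2 : ℕ) + 1 else 1) = _
    rw [dif_pos hi]
  rw [ha] at h
  change (_ ≠ _ ∧ segment ℝ (poly K A p hK hA hp φ _) (poly K A p hK hA hp φ _) ⊆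
    region (poly K A p hK hA hp φ)) ↔ _
  rw [poly_tip, poly_right]
  constructor
  · rintro ⟨-, h2⟩
    have := h.1 h2
    omega
  · intro h2
    refine ⟨?_, h.2 (by omega)⟩
    intro h3
    have h4 := congrArg Fin.val h3
    simp only [tipIdx, rightIdx] at h4
    omega

/-- The counting inequality. -/
theorem count (K A p : ℕ) (hK : 2 ≤ K) (hA : 1 ≤ A) (hp : 2 * K ≤ p) : (K - 1) ^ (2 * A) ≤
    (p + (2 * A + 2)) ^ (2 * (K - 1) + A) * N' (p + (2 * A + 2)) := by
  classical
  set n := p + (2 * A + 2) with hn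
  set F : (Fin A → Fin (K - 1) × Fin (K - 1)) → Quotient (isoSetoid n) :=
    fun φ => Quotient.mk _ (visGraph (poly K A p hK hA hp φ)) with hF
  have h1 := Finset.card_le_mul_card_image (f := F) Finset.univ (n ^ (2 * (K - 1) + A)) ?_
  · rw [Finset.card_univ, Fintype.card_fun, Fintype.card_prod, Fintype.card_fin,
      Fintype.card_fin] at h1
    have e : (K - 1) ^ (2 * A) = ((K - 1) * (K - 1)) ^ A := by
      rw [pow_mul, sq]
    rw [e]
    refine h1.trans (Nat.mul_le_mul_left _ ?_)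
    -- the image is contained in the set of classes
    unfold N'
    rw [← Nat.card_eq_finsetCard]
    have : Finite (Quotient (isoSetoid n)) := Quotient.finite _
    refine Nat.card_le_card_of_injective
      (fun c : (Finset.univ.image F) => (⟨c.1, ?_⟩ :
        {c : Quotient (isoSetoid n) // ∃ v : Fin n → ℝ × ℝ, IsSimple v ∧ NoFlat v ∧
          c = Quotient.mk (isoSetoid n) (visGraph v)})) ?_
    · obtain ⟨φ, -, hφ⟩ := Finset.mem_image.1 c.2
      exact ⟨poly K A p hK hA hp φ, poly_simple K A p hK hA hp φ,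
        poly_noFlat K A p hK hA hp φ, hφ.symm⟩
    · intro c d h
      have h' := congrArg Subtype.val h
      exact Subtype.ext h'
  · -- the fibres
    intro c hc
    obtain ⟨φ0, -, hφ0⟩ := Finset.mem_image.1 hc
    have hiso : ∀ φ ∈ Finset.univ.filter (fun φ => F φ = c),
        Nonempty (visGraph (poly K A p hK hA hp φ) ≃g visGraph (poly K A p hK hA hp φ0)) := by
      intro φ hφ
      rw [Finset.mem_filter] at hφ
      have : F φ = F φ0 := hφ.2.trans hφ0.symm
      exact Quotient.exact this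
    set code : (Fin A → Fin (K - 1) × Fin (K - 1)) →
        ((Fin (K - 1) → Fin n) × (Fin (K - 1) → Fin n)) × (Fin A → Fin n) := fun φ =>
      if h : Nonempty (visGraph (poly K A p hK hA hp φ) ≃g visGraph (poly K A p hK hA hp φ0)) then
        ((fun j => h.some (leftIdx K A p hp j), fun j => h.some (rightIdx K A p hp j)),
          fun i => h.some (tipIdx A p i))
      else ((fun j => leftIdx K A p hp j, fun j => rightIdx K A p hp j), fun i => tipIdx A p i)
      with hcode
    have hinj : Set.InjOn code (Finset.univ.filter (fun φ => F φ = c)) := by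
      intro φ hφ ψ hψ heq
      have h1 := hiso φ hφ
      have h2 := hiso ψ hψ
      simp only [hcode, dif_pos h1, dif_pos h2, Prod.mk.injEq] at heq
      obtain ⟨⟨e1, e2⟩, e3⟩ := heq
      funext i
      have k3 := congrFun e3 i
      apply Prod.ext
      · have key : ∀ j : Fin (K - 1), (j : ℕ) ≤ (φ i).1 ↔ (j : ℕ) ≤ (ψ i).1 := by
          intro j
          have k1 := congrFun e1 j
          rw [← adj_left K A p hK hA hp φ i j, ← adj_left K A p hK hA hp ψ i j,
            ← h1.some.map_adj_iff, ← h2.some.map_adj_iff, k1, k3]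
        have a1 := (key (φ i).1).1 le_rfl
        have a2 := (key (ψ i).1).2 le_rfl
        exact Fin.ext (le_antisymm a1 a2)
      · have key : ∀ j : Fin (K - 1), (j : ℕ) ≤ (φ i).2 ↔ (j : ℕ) ≤ (ψ i).2 := by
          intro j
          have k1 := congrFun e2 j
          rw [← adj_right K A p hK hA hp φ i j, ← adj_right K A p hK hA hp ψ i j,
            ← h1.some.map_adj_iff, ← h2.some.map_adj_iff, k1, k3]
        have a1 := (key (φ i).2).1 le_rfl
        have a2 := (key (ψ i).2).2 le_rfl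
        exact Fin.ext (le_antisymm a1 a2)
    have hle := Finset.card_le_card_of_injOn code (fun φ _ => Finset.mem_univ (code φ)) hinj
    refine hle.trans (le_of_eq ?_)
    rw [Finset.card_univ, Fintype.card_prod, Fintype.card_prod, Fintype.card_fun,
      Fintype.card_fun, Fintype.card_fin, Fintype.card_fin, Fintype.card_fin, ← pow_add,
      ← pow_add]
    congr 1
    ring

theorem N'_pos_and_bound (n : ℕ) (hn : 2 ^ 56 ≤ n) :
    (0 : ℝ) < N' n ∧ (1 / 8 : ℝ) * n * Real.logb 2 n ≤ Real.logb 2 (N' n) := by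
  have hn64 : (2 : ℕ) ^ 56 = 72057594037927936 := by norm_num
  rw [hn64] at hn
  set k := n / 64 with hk
  set A := n / 4 with hA
  have hcount := count (k + 1) A (n - (2 * A + 2)) (by omega) (by omega) (by omega)
  have e : n - (2 * A + 2) + (2 * A + 2) = n := by omega
  rw [e, Nat.add_sub_cancel] at hcount
  have hk0 : 0 < k := by omega
  have hkR : (0 : ℝ) < k := by exact_mod_cast hk0
  have hnR : (0 : ℝ) < n := by
    have : 0 < n := by omega
    exact_mod_cast this
  have hcR : (k : ℝ) ^ (2 * A) ≤ (n : ℝ) ^ (2 * k + A) * (N' n : ℝ) := by exact_mod_cast hcount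
  have hN : (0 : ℝ) < N' n := by
    by_contra hcon
    push Not at hcon
    have h1 : (n : ℝ) ^ (2 * k + A) * (N' n : ℝ) ≤ 0 :=
      mul_nonpos_of_nonneg_of_nonpos (by positivity) hcon
    have h2 : (0 : ℝ) < (k : ℝ) ^ (2 * A) := by positivity
    linarith
  have hlog := Real.logb_le_logb_of_le (b := 2) (by norm_num) (by positivity) hcR
  rw [Real.logb_mul (by positivity) hN.ne', Real.logb_pow, Real.logb_pow] at hlog
  -- log k ≥ log n - 7
  have hk128 : (n : ℝ) / 2 ^ 7 ≤ k := by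
    rw [div_le_iff₀ (by norm_num)]
    have : n ≤ k * 2 ^ 7 := by omega
    exact_mod_cast this
  have hlk : Real.logb 2 n - 7 ≤ Real.logb 2 k := by
    have h1 := Real.logb_le_logb_of_le (b := 2) (by norm_num) (by positivity) hk128
    rw [Real.logb_div hnR.ne' (by norm_num), Real.logb_pow, Real.logb_self_eq_one (by norm_num)]
      at h1
    push_cast at h1
    linarith
  have hln : (56 : ℝ) ≤ Real.logb 2 n := by
    have h2 : ((2 : ℝ) ^ 56) ≤ n := by
      have h3 : (72057594037927936 : ℝ) ≤ n := by exact_mod_cast hn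
      calc ((2 : ℝ) ^ 56) = 72057594037927936 := by norm_num
        _ ≤ n := h3
    have h1 := Real.logb_le_logb_of_le (b := 2) (by norm_num) (by positivity) h2
    rw [Real.logb_pow, Real.logb_self_eq_one (by norm_num)] at h1
    push_cast at h1
    linarith
  have hA1 : (n : ℝ) ≤ 4 * A + 3 := by
    have : n ≤ 4 * A + 3 := by omega
    exact_mod_cast this
  have hA2 : 4 * (A : ℝ) ≤ n := by
    have : 4 * A ≤ n := by omega
    exact_mod_cast this
  have hk2 : 64 * (k : ℝ) ≤ n := by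
    have : 64 * k ≤ n := by omega
    exact_mod_cast this
  have hnbig : (72057594037927936 : ℝ) ≤ n := by exact_mod_cast hn
  push_cast at hlog
  set ℓ := Real.logb 2 n with hℓ
  set κ := Real.logb 2 k with hκ
  have h3 : 2 * (A : ℝ) * (ℓ - 7) ≤ 2 * (A : ℝ) * κ :=
    mul_le_mul_of_nonneg_left hlk (by positivity)
  -- log N ≥ 2 A (ℓ - 7) - (2 k + A) ℓ
  have h4 : (A : ℝ) * ℓ - 14 * A - 2 * k * ℓ ≤ Real.logb 2 (N' n) := by linarith
  have h5 : (k : ℝ) * ℓ ≤ n / 64 * ℓ := mul_le_mul_of_nonneg_right (by linarith) (by linarith)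
  have h6 : ((n : ℝ) / 4 - 3 / 4) * ℓ ≤ A * ℓ :=
    mul_le_mul_of_nonneg_right (by linarith) (by linarith)
  have h7 : ((n : ℝ) * 3 / 32 - 3 / 4) * 56 ≤ ((n : ℝ) * 3 / 32 - 3 / 4) * ℓ :=
    mul_le_mul_of_nonneg_left hln (by linarith)
  exact ⟨hN, by linarith⟩

/-- **`log₂ N(n) ≥ (1/8) n log₂ n`** for all sufficiently large `n` (all `n ≥ 2^56`), and the same for
polygons without flat vertices. With the known upper bound `N(n) ≤ 2^(O(n log n))` this determines the
order of magnitude of `log₂ N(n)`: it is `Θ(n log n)`. -/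
theorem result : ∀ n : ℕ, 2 ^ 56 ≤ n →
    (1 / 8 : ℝ) * n * Real.logb 2 n ≤ Real.logb 2 (N n) ∧
    (1 / 8 : ℝ) * n * Real.logb 2 n ≤ Real.logb 2 (N' n) := by
  intro n hn
  obtain ⟨h1, h2⟩ := N'_pos_and_bound n hn
  have h3 : (N' n : ℝ) ≤ N n := by exact_mod_cast N'_le_N n
  exact ⟨h2.trans (Real.logb_le_logb_of_le (by norm_num) h1 h3), h2⟩

end Pool.Agent.Results.MP_af711c_co.SuperexponentialCount
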